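import Pool.Agent.H21.L.R_seed8.TH942.LS.Main
import Pool.Agent.H21.L.R_seed8.W187.UR.Np

/-!
# Means which are invariant in the logarithmic scale, for an elliptic curve
-/

set_option autoImplicit false

namespace Pool.Agent.TH942.LS

open MeasureTheory Filter Topology Set Classical
open Pool.Agent.W263.BSD Pool.Agent.W189.ML Pool.Agent.W187.UR

/-- the frequencies: `log n` for `n ≥ 2` -/
noncomputable def lm (n : ℕ) : ℝ := max (Real.log n) (Real.log 2)

lemma lm_eq {n : ℕ} (hn : 2 ≤ n) : lm n = Real.log n := by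
  unfold lm
  apply max_eq_left
  apply Real.log_le_log (by norm_num)
  exact_mod_cast hn

/-- the coefficients -/
noncomputable def cE (a b : ℤ) (p : ℕ) : ℝ :=
  if GoodPrime a b p then Real.log (((pointCount a b p : ℝ) + 1) / p) else 0

variable {a b : ℤ} {F : ℂ → ℂ}

lemma cE_eq (p : ℕ) : cE a b p = cf a b p + if p < 25 then cE a b p else 0 := by
  unfold cE cf
  by_cases hg : GoodPrime a b p
  · by_cases h25 : 25 ≤ p
    · have hS : p ∈ SS a b := ⟨hg, h25⟩
      rw [if_pos hg, if_pos hS, if_neg (by omega), cc_eq_lp (by omega), add_zero]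
      rfl
    · have hS : p ∉ SS a b := fun h => h25 h.2
      rw [if_pos hg, if_neg hS, if_pos (by omega), zero_add]
  · have hS : p ∉ SS a b := fun h => hg h.1
    rw [if_neg hg, if_neg hS]
    simp

lemma cf_ne {p : ℕ} (h : cf a b p ≠ 0) : 25 ≤ p := by
  unfold cf at h
  by_contra h1
  rw [if_neg (fun h2 => h1 h2.2)] at h
  exact h rfl

theorem dat (a b : ℤ) : Dat lm (cE a b) (Real.log 2) 2 where
  δ0 := Real.log_pos (by norm_num)
  σ0 := by norm_num
  lam_ge := fun n => le_max_right _ _
  sum := by
    have h1 := cf_sum a b 2 (by norm_num)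
    have h2 : Summable fun p : ℕ => |if p < 25 then cE a b p else 0| * Real.exp (-(2 * lm p)) :=
      summable_of_ne_finset_zero (s := Finset.range 25) fun p hp => by
        rw [Finset.mem_range] at hp
        rw [if_neg hp, abs_zero, zero_mul]
    refine Summable.of_nonneg_of_le (fun p => by positivity) (fun p => ?_) (h1.add h2)
    have h3 : Real.exp (-(2 * lm p)) ≤ Real.exp (-(2 * Real.log p)) := by
      apply Real.exp_le_exp.2
      have : Real.log p ≤ lm p := le_max_left _ _
      linarith
    calc |cE a b p| * Real.exp (-(2 * lm p)) ≤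
        (|cf a b p| + |if p < 25 then cE a b p else 0|) * Real.exp (-(2 * lm p)) := by
          gcongr
          conv_lhs => rw [cE_eq]
          exact abs_add_le _ _
      _ = |cf a b p| * Real.exp (-(2 * lm p)) +
          |if p < 25 then cE a b p else 0| * Real.exp (-(2 * lm p)) := by ring
      _ ≤ _ := by gcongr

/-- the derivative of the Dirichlet series -/
lemma deriv_ser {s : ℂ} (hs : 1 < s.re) :
    HasSum (fun p : ℕ => -(((cf a b p * Real.log p : ℝ) : ℂ) * Complex.exp (-(s * Real.log p))))
      (deriv (ser (fun p : ℕ => Real.log p) (cf a b)) s) := by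
  obtain ⟨σ, h1, h2⟩ := exists_between hs
  have ho : IsOpen {z : ℂ | σ < z.re} := isOpen_lt continuous_const Complex.continuous_re
  have h3 := Complex.hasSum_deriv_of_summable_norm (U := {z : ℂ | σ < z.re})
    (F := fun (p : ℕ) (z : ℂ) => (cf a b p : ℂ) * Complex.exp (-(z * Real.log p)))
    (cf_sum a b σ h1) (fun p => (by fun_prop : Differentiable ℂ _).differentiableOn) ho
    (fun p z hz => by
      rw [norm_mul, Complex.norm_real, Real.norm_eq_abs, Complex.norm_exp]
      refine mul_le_mul_of_nonneg_left (Real.exp_le_exp.2 ?_) (abs_nonneg _)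
      have e1 : (-(z * ((Real.log p : ℝ) : ℂ))).re = -(z.re * Real.log p) := by
        rw [Complex.neg_re, Complex.re_mul_ofReal]
      rw [e1]
      have := Real.log_natCast_nonneg p
      have hz' : σ < z.re := hz
      nlinarith) (show σ < s.re from h2)
  refine h3.congr_fun fun p => ?_
  have h4 : HasDerivAt (fun z : ℂ => (cf a b p : ℂ) * Complex.exp (-(z * Real.log p)))
      ((cf a b p : ℂ) * (Complex.exp (-(s * Real.log p)) * (-(1 * (Real.log p : ℂ))))) s :=
    (((hasDerivAt_id s).mul_const _).neg.cexp).const_mul _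
  rw [h4.deriv]
  push_cast
  ring

/-- the entire part -/
noncomputable def Kf (a b : ℤ) (s : ℂ) : ℂ := deriv (GG (SS a b) (Ap a b)) s -
  ∑ p ∈ Finset.range 25, ((cE a b p * lm p : ℝ) : ℂ) * Complex.exp (-(s * lm p))

theorem cont (hF : IsLSeries a b F) {θ : ℝ} (hθ : 0 ≤ θ) :
    Cont lm (cE a b) 2 θ (PhiF a b F) (Kf a b) where
  θ0 := hθ
  Ψd := fun s _ => PhiF_differentiable hF s
  Kd := fun s hs => by
    have E := eData a b
    have ho : IsOpen {z : ℂ | 0 < z.re} := isOpen_lt continuous_const Complex.continuous_re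
    have h1 : DifferentiableOn ℂ (GG (SS a b) (Ap a b)) {z : ℂ | 0 < z.re} := fun z hz =>
      (E.GG_differentiable hz).differentiableWithinAt
    have h2 : AnalyticAt ℂ (GG (SS a b) (Ap a b)) s :=
      h1.analyticAt (ho.mem_nhds (show 0 < s.re by linarith))
    unfold Kf
    exact h2.deriv.differentiableAt.sub (by fun_prop)
  ne := fun s hs => PhiF_ne_zero_of_one_lt hF (by linarith)
  eq := fun s hs => by
    have E := eData a b
    have hs1 : 1 < s.re := by linarith
    -- splitting
    have h1 : P lm (cE a b) s = (∑' p : ℕ, ((cf a b p * Real.log p : ℝ) : ℂ) *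
        Complex.exp (-(s * Real.log p))) +
        ∑ p ∈ Finset.range 25, ((cE a b p * lm p : ℝ) : ℂ) * Complex.exp (-(s * lm p)) := by
      have e1 : ∀ p : ℕ, ((cE a b p * lm p : ℝ) : ℂ) * Complex.exp (-(s * lm p)) =
          ((cf a b p * Real.log p : ℝ) : ℂ) * Complex.exp (-(s * Real.log p)) +
          (if p < 25 then ((cE a b p * lm p : ℝ) : ℂ) * Complex.exp (-(s * lm p)) else 0) := by
        intro p
        by_cases h25 : p < 25
        · have h2 : cf a b p = 0 := by
            by_contra h
            have := cf_ne h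
            omega
          rw [if_pos h25, h2]
          simp
        · have h3 : cE a b p = cf a b p := by
            rw [cE_eq, if_neg h25, add_zero]
          rw [if_neg h25, add_zero, h3, lm_eq (by omega)]
      unfold P
      rw [tsum_congr e1]
      have s1 : Summable fun p : ℕ => ((cf a b p * Real.log p : ℝ) : ℂ) *
          Complex.exp (-(s * Real.log p)) := by
        have := (deriv_ser (a := a) (b := b) hs1).summable.neg
        simpa using this
      have hz : ∀ p ∉ Finset.range 25, (if p < 25 then ((cE a b p * lm p : ℝ) : ℂ) *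
          Complex.exp (-(s * lm p)) else 0) = 0 := fun p hp => by
        rw [Finset.mem_range] at hp
        rw [if_neg hp]
      rw [s1.tsum_add (summable_of_ne_finset_zero hz), tsum_eq_sum hz]
      congr 1
    have h2 : (∑' p : ℕ, ((cf a b p * Real.log p : ℝ) : ℂ) * Complex.exp (-(s * Real.log p))) =
        -deriv (ser (fun p : ℕ => Real.log p) (cf a b)) s := by
      rw [← (deriv_ser (a := a) (b := b) hs1).tsum_eq, tsum_neg, neg_neg]
    -- the logarithm
    have ho : IsOpen {z : ℂ | 1 < z.re} := isOpen_lt continuous_const Complex.continuous_re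
    set g : ℂ → ℂ := fun w => GG (SS a b) (Ap a b) w - ser (fun p : ℕ => Real.log p) (cf a b) w with hg
    have hge : PhiF a b F =ᶠ[𝓝 s] fun w => Complex.exp (g w) := by
      filter_upwards [ho.mem_nhds hs1] with w hw
      exact (exp_eq E hw (PhiF_hasProd hF hw)).symm
    have d1 : DifferentiableAt ℂ (GG (SS a b) (Ap a b)) s := E.GG_differentiable (by linarith)
    have d2 : DifferentiableAt ℂ (ser (fun p : ℕ => Real.log p) (cf a b)) s :=
      (ser_analytic (fun p => Real.log_natCast_nonneg p) (cf_sum a b) hs1).differentiableAt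
    have d3 : HasDerivAt g (deriv (GG (SS a b) (Ap a b)) s -
        deriv (ser (fun p : ℕ => Real.log p) (cf a b)) s) s := d1.hasDerivAt.sub d2.hasDerivAt
    have h3 : deriv (PhiF a b F) s / PhiF a b F s = deriv (GG (SS a b) (Ap a b)) s -
        deriv (ser (fun p : ℕ => Real.log p) (cf a b)) s := by
      rw [hge.deriv_eq, hge.eq_of_nhds, d3.cexp.deriv]
      field_simp
    rw [h1, h2, h3]
    unfold Kf
    ring

/-- the mean as a finite sum -/
theorem S_finite (w : ℝ → ℝ) {W β : ℝ} (hw : Wt w W β) {X : ℝ} (hX : 1 < X) :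
    S lm (cE a b) w (Real.log X) = ∑ p ∈ (Finset.range (⌊X ^ β⌋₊ + 1)).filter (GoodPrime a b),
      w (Real.log p / Real.log X) * Real.log (((pointCount a b p : ℝ) + 1) / p) := by
  have hT : 0 < Real.log X := Real.log_pos hX
  have hX0 : 0 < X := by linarith
  unfold S
  have hz : ∀ p ∉ (Finset.range (⌊X ^ β⌋₊ + 1)).filter (GoodPrime a b),
      cE a b p * w (lm p / Real.log X) = 0 := by
    intro p hp
    by_cases hg : GoodPrime a b p
    · have h1 : p ∉ Finset.range (⌊X ^ β⌋₊ + 1) := fun h => hp (Finset.mem_filter.2 ⟨h, hg⟩)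
      rw [Finset.mem_range, not_lt] at h1
      have h2 : ⌊X ^ β⌋₊ < p := h1
      have h3 : X ^ β < p := (Nat.floor_lt (by positivity)).1 h2
      have h4 : β * Real.log X < Real.log p := by
        rw [← Real.log_rpow hX0]
        exact Real.log_lt_log (by positivity) h3
      have h5 : β < lm p / Real.log X := by
        rw [lt_div_iff₀ hT]
        exact h4.trans_le (le_max_left _ _)
      rw [hw.supp _ h5, mul_zero]
    · unfold cE
      rw [if_neg hg, zero_mul]
  rw [tsum_eq_sum hz]
  refine Finset.sum_congr rfl fun p hp => ?_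
  have hg : GoodPrime a b p := (Finset.mem_filter.1 hp).2
  unfold cE
  rw [if_pos hg, lm_eq hg.1.two_le, mul_comm]

/-- **zeros force large means** -/
theorem omega (hF : IsLSeries a b F) {w : ℝ → ℝ} {W β : ℝ} (hw : Wt w W β)
    (htop : ∀ κ, κ < β → ¬ ∀ᵐ x, x ∈ Ioo κ β → w x = 0) {s : ℂ} (hs : 1 < s.re) (h0 : F s = 0)
    {α C : ℝ} (hα : α < β * (s.re - 1))
    (hS : ∀ᶠ X : ℝ in atTop, |∑ p ∈ (Finset.range (⌊X ^ β⌋₊ + 1)).filter (GoodPrime a b),
      w (Real.log p / Real.log X) * Real.log (((pointCount a b p : ℝ) + 1) / p)| ≤ C * X ^ α) :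
    False := by
  have hβ := hw.b0
  set θ : ℝ := max 0 (α / β) with hθ
  have hθ0 : 0 ≤ θ := le_max_left _ _
  have hθ1 : α ≤ β * θ := by
    have : α / β ≤ θ := le_max_right _ _
    rw [div_le_iff₀ hβ] at this
    linarith
  have hθ2 : θ < s.re - 1 := by
    refine max_lt (by linarith) ?_
    rw [div_lt_iff₀ hβ]
    linarith
  have hs' : θ < (s - 1).re := by simpa using hθ2
  refine no_zeros (dat a b) hw (cont hF hθ0) htop ?_ hs' ?_
  · intro α' hα'
    obtain ⟨X₀, hX₀⟩ := hS.exists_forall_of_atTop
    refine ⟨|C|, max 1 (Real.log (max X₀ 1)), fun T hT => ?_⟩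
    have hT1 : 1 ≤ T := (le_max_left _ _).trans hT
    have hT2 : Real.log (max X₀ 1) ≤ T := (le_max_right _ _).trans hT
    have hm : 0 < max X₀ 1 := lt_max_of_lt_right one_pos
    have h1 : X₀ ≤ Real.exp T := by
      rw [Real.log_le_iff_le_exp hm] at hT2
      exact (le_max_left _ _).trans hT2
    have h2 := hX₀ _ h1
    have h3 : 1 < Real.exp T := Real.one_lt_exp_iff.2 (by linarith)
    have h4 := S_finite (a := a) (b := b) w hw h3
    rw [Real.log_exp] at h4 h2
    rw [h4]
    refine h2.trans ?_
    rw [← Real.exp_mul]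
    have h5 : Real.exp (T * α) ≤ Real.exp (α' * T) := Real.exp_le_exp.2 (by nlinarith)
    calc C * Real.exp (T * α) ≤ |C| * Real.exp (T * α) := by
          gcongr
          exact le_abs_self C
      _ ≤ _ := by gcongr
  · unfold PhiF
    rw [add_sub_cancel, h0, zero_mul]

end Pool.Agent.TH942.LS
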