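import Pool.Agent.H21.L.R_seed8.TH942.LS.Jump

/-!
# Laplace transforms of means which are invariant in the logarithmic scale
-/

set_option autoImplicit false

open MeasureTheory Filter Topology Set Complex

namespace Pool.Agent.TH942.LS

/-- Dirichlet series data -/
structure Dat (lam c : ℕ → ℝ) (δ σ : ℝ) : Prop where
  δ0 : 0 < δ
  σ0 : 0 < σ
  lam_ge : ∀ n, δ ≤ lam n
  sum : Summable fun n => |c n| * Real.exp (-(σ * lam n))

/-- minus the derivative of the Dirichlet series -/
noncomputable def P (lam c : ℕ → ℝ) (s : ℂ) : ℂ := ∑' n, ((c n * lam n : ℝ) : ℂ) * exp (-(s * lam n))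

/-- the mean with the weight `w` -/
noncomputable def S (lam c : ℕ → ℝ) (w : ℝ → ℝ) (T : ℝ) : ℝ := ∑' n, c n * w (lam n / T)

/-- the weight -/
structure Wt (w : ℝ → ℝ) (W b : ℝ) : Prop where
  meas : Measurable w
  bd : ∀ u, |w u| ≤ W
  b0 : 0 < b
  supp : ∀ u, b < u → w u = 0

variable {lam c : ℕ → ℝ} {δ σ W b : ℝ} {w : ℝ → ℝ}

lemma Wt.W0 (hw : Wt w W b) : 0 ≤ W := (abs_nonneg _).trans (hw.bd 0)

lemma Dat.lam0 (D : Dat lam c δ σ) (n : ℕ) : 0 < lam n := D.δ0.trans_le (D.lam_ge n)

/-- the terms -/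
lemma term_le (D : Dat lam c δ σ) (hw : Wt w W b) {T : ℝ} (hT : 0 < T) (n : ℕ) :
    |c n * w (lam n / T)| ≤ W * Real.exp (σ * b * T) * (|c n| * Real.exp (-(σ * lam n))) := by
  have hW := hw.W0
  rw [abs_mul]
  by_cases h : lam n / T ≤ b
  · rw [div_le_iff₀ hT] at h
    have h1 : 1 ≤ Real.exp (σ * b * T) * Real.exp (-(σ * lam n)) := by
      rw [← Real.exp_add]
      apply Real.one_le_exp
      have := mul_le_mul_of_nonneg_left h D.σ0.le
      nlinarith
    calc |c n| * |w (lam n / T)| ≤ |c n| * W * 1 := by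
          rw [mul_one]
          exact mul_le_mul_of_nonneg_left (hw.bd _) (abs_nonneg _)
      _ ≤ |c n| * W * (Real.exp (σ * b * T) * Real.exp (-(σ * lam n))) := by gcongr
      _ = _ := by ring
  · push Not at h
    rw [hw.supp _ h, abs_zero, mul_zero]
    positivity

lemma S_summable (D : Dat lam c δ σ) (hw : Wt w W b) {T : ℝ} (hT : 0 < T) :
    Summable fun n => c n * w (lam n / T) :=
  Summable.of_norm_bounded (D.sum.mul_left _) fun n => by
    rw [Real.norm_eq_abs]
    exact term_le D hw hT n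

lemma S_le (D : Dat lam c δ σ) (hw : Wt w W b) {T : ℝ} (hT : 0 < T) :
    |S lam c w T| ≤ W * Real.exp (σ * b * T) * ∑' n, |c n| * Real.exp (-(σ * lam n)) := by
  unfold S
  rw [← Real.norm_eq_abs]
  exact tsum_of_norm_bounded (D.sum.hasSum.mul_left _) fun n => by
    rw [Real.norm_eq_abs]
    exact term_le D hw hT n

lemma S_meas (D : Dat lam c δ σ) (hw : Wt w W b) :
    AEStronglyMeasurable (S lam c w) (volume.restrict (Ioi 0)) := by
  refine aestronglyMeasurable_of_tendsto_ae atTop
    (f := fun (N : ℕ) T => ∑ n ∈ Finset.range N, c n * w (lam n / T)) (fun N => ?_) ?_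
  · refine Measurable.aestronglyMeasurable ?_
    refine Finset.measurable_fun_sum _ fun n _ => ?_
    exact (hw.meas.comp (by fun_prop)).const_mul _
  · filter_upwards [ae_restrict_mem measurableSet_Ioi] with T hT
    exact (S_summable D hw hT).hasSum.tendsto_sum_nat

/-- the Laplace transform -/
noncomputable def L (lam c : ℕ → ℝ) (w : ℝ → ℝ) (t : ℂ) : ℂ :=
  ∫ T in Ioi (0 : ℝ), exp (-(t * T)) * (S lam c w T : ℂ)

/-- change of variables -/
lemma subst {l : ℝ} (hl : 0 < l) (t : ℂ) (w : ℝ → ℝ) :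
    ∫ T in Ioi (0 : ℝ), exp (-(t * T)) * (w (l / T) : ℂ) =
      ∫ u in Ioi (0 : ℝ), (l : ℂ) * (((u ^ 2)⁻¹ : ℝ) * (exp (-(t / u * l)) * (w u : ℂ))) := by
  have h1 := integral_comp_mul_left_Ioi (fun T : ℝ => exp (-(t * T)) * (w (l / T) : ℂ)) 0 hl
  rw [mul_zero] at h1
  have h2 := integral_comp_rpow_Ioi (fun y : ℝ => exp (-(t * ((l * y : ℝ) : ℂ))) *
    (w (l / (l * y)) : ℂ)) (p := -1) (by norm_num)
  have h3 : ∫ T in Ioi (0 : ℝ), exp (-(t * T)) * (w (l / T) : ℂ) =
      (l : ℂ) * ∫ y in Ioi (0 : ℝ), exp (-(t * ((l * y : ℝ) : ℂ))) * (w (l / (l * y)) : ℂ) := by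
    rw [h1, Complex.real_smul]
    push_cast
    rw [← mul_assoc, mul_inv_cancel₀ (by exact_mod_cast hl.ne'), one_mul]
  rw [h3, ← h2, ← integral_const_mul]
  refine setIntegral_congr_fun measurableSet_Ioi fun u hu => ?_
  have hu0 : (0 : ℝ) < u := hu
  rw [Complex.real_smul]
  have e1 : |(-1 : ℝ)| * u ^ ((-1 : ℝ) - 1) = (u ^ 2)⁻¹ := by
    rw [abs_neg, abs_one, one_mul, show (-1 : ℝ) - 1 = -2 by norm_num, Real.rpow_neg hu0.le]
    norm_num
  have e2 : u ^ (-1 : ℝ) = u⁻¹ := by rw [Real.rpow_neg_one]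
  rw [e1, e2]
  have e3 : l / (l * u⁻¹) = u := by field_simp
  rw [e3]
  congr 3
  congr 1
  push_cast
  have : (u : ℂ) ≠ 0 := by exact_mod_cast hu0.ne'
  field_simp

lemma sq_exp_le {ε x : ℝ} (hε : 0 < ε) (hx : 0 ≤ x) : x ^ 2 * Real.exp (-(ε * x)) ≤ 2 / ε ^ 2 := by
  have h1 := Real.quadratic_le_exp_of_nonneg (x := ε * x) (by positivity)
  rw [Real.exp_neg, ← div_eq_mul_inv, div_le_div_iff₀ (Real.exp_pos _) (by positivity)]
  nlinarith [mul_nonneg hε.le hx]

/-- **The Laplace transform of the mean.** -/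
theorem laplace (D : Dat lam c δ σ) (hw : Wt w W b) {t : ℂ} (ht : b * σ < t.re) :
    L lam c w t = ∫ u in Ioo 0 b, (w u : ℂ) * (((u ^ 2)⁻¹ : ℝ) * P lam c (t / u)) := by
  have hb := hw.b0
  have hW := hw.W0
  set ε : ℝ := t.re - b * σ with hε
  have hε0 : 0 < ε := by rw [hε]; linarith
  -- first exchange
  have h1 : HasSum (fun n => ∫ T in Ioi (0 : ℝ), exp (-(t * T)) * ((c n * w (lam n / T) : ℝ) : ℂ))
      (L lam c w t) := by
    have hnorm : ∀ n, ∀ T ∈ Ioi (0 : ℝ), ‖exp (-(t * T)) * ((c n * w (lam n / T) : ℝ) : ℂ)‖ ≤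
        W * (|c n| * Real.exp (-(σ * lam n))) * Real.exp (-(ε * T)) := by
      intro n T hT
      have e1 := term_le D hw hT n
      rw [norm_mul, Complex.norm_exp, Complex.norm_real, Real.norm_eq_abs]
      have e2 : (-(t * (T : ℂ))).re = -(t.re * T) := by simp
      rw [e2]
      calc Real.exp (-(t.re * T)) * |c n * w (lam n / T)| ≤ Real.exp (-(t.re * T)) *
            (W * Real.exp (σ * b * T) * (|c n| * Real.exp (-(σ * lam n)))) := by gcongr
        _ = W * (|c n| * Real.exp (-(σ * lam n))) *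
            (Real.exp (-(t.re * T)) * Real.exp (σ * b * T)) := by ring
        _ = _ := by
          rw [← Real.exp_add]
          congr 2
          rw [hε]
          ring
    have hexp : IntegrableOn (fun T : ℝ => Real.exp (-(ε * T))) (Ioi 0) := by
      have := integrableOn_exp_mul_Ioi (a := -ε) (by linarith) 0
      refine this.congr_fun (fun T _ => ?_) measurableSet_Ioi
      simp only
      congr 1
      ring
    have hint : ∀ n, Integrable (fun T : ℝ => exp (-(t * T)) * ((c n * w (lam n / T) : ℝ) : ℂ))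
        (volume.restrict (Ioi 0)) := by
      intro n
      refine Integrable.mono' (hexp.const_mul (W * (|c n| * Real.exp (-(σ * lam n))))) ?_ ?_
      · refine Measurable.aestronglyMeasurable ?_
        refine (Measurable.cexp (by fun_prop)).mul ?_
        exact Complex.measurable_ofReal.comp ((hw.meas.comp (by fun_prop)).const_mul _)
      · filter_upwards [ae_restrict_mem measurableSet_Ioi] with T hT
        exact hnorm n T hT
    have hE : ∀ n, ∫ T in Ioi (0 : ℝ), W * (|c n| * Real.exp (-(σ * lam n))) * Real.exp (-(ε * T)) =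
        W * (|c n| * Real.exp (-(σ * lam n))) * ∫ T in Ioi (0 : ℝ), Real.exp (-(ε * T)) := fun n =>
      integral_const_mul _ _
    have h2 := hasSum_integral_of_summable_integral_norm (μ := volume.restrict (Ioi (0 : ℝ))) hint
      (Summable.of_nonneg_of_le (fun n => by positivity) (fun n => by
        refine (setIntegral_mono_on (hint n).norm (hexp.const_mul _) measurableSet_Ioi
          (hnorm n)).trans (hE n).le) ((D.sum.mul_left W).mul_right _))
    have h3 : ∫ T in Ioi (0 : ℝ), (∑' n, exp (-(t * T)) * ((c n * w (lam n / T) : ℝ) : ℂ)) =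
        L lam c w t := by
      unfold L
      refine setIntegral_congr_fun measurableSet_Ioi fun T _ => ?_
      rw [tsum_mul_left, ← Complex.ofReal_tsum]
      rfl
    rwa [h3] at h2
  -- second exchange
  have h2 : HasSum (fun n => ∫ u in Ioo 0 b, (w u : ℂ) * (((u ^ 2)⁻¹ : ℝ) *
      (((c n * lam n : ℝ) : ℂ) * exp (-(t / u * lam n)))))
      (∫ u in Ioo 0 b, (w u : ℂ) * (((u ^ 2)⁻¹ : ℝ) * P lam c (t / u))) := by
    have hnorm : ∀ n, ∀ u ∈ Ioo 0 b, ‖(w u : ℂ) * (((u ^ 2)⁻¹ : ℝ) *
        (((c n * lam n : ℝ) : ℂ) * exp (-(t / u * lam n))))‖ ≤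
        W * (2 / ε ^ 2 / δ) * (|c n| * Real.exp (-(σ * lam n))) := by
      intro n u hu
      have hu0 : 0 < u := hu.1
      have hl := D.lam0 n
      rw [norm_mul, norm_mul, norm_mul, Complex.norm_real, Complex.norm_real, Complex.norm_real,
        Complex.norm_exp, Real.norm_eq_abs, Real.norm_eq_abs, Real.norm_eq_abs, abs_mul,
        abs_of_pos (by positivity : 0 < (u ^ 2)⁻¹), abs_of_pos hl]
      have e1 : (-(t / (u : ℂ) * (lam n : ℂ))).re = -(t.re * (lam n / u)) := by
        rw [Complex.neg_re, Complex.re_mul_ofReal, Complex.div_ofReal_re]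
        ring
      rw [e1]
      have e2 : Real.exp (-(t.re * (lam n / u))) ≤
          Real.exp (-(σ * lam n)) * Real.exp (-(ε * (lam n / u))) := by
        rw [← Real.exp_add]
        apply Real.exp_le_exp.2
        have e3 : lam n ≤ b * (lam n / u) := by
          rw [← mul_div_assoc, le_div_iff₀ hu0, mul_comm]
          exact mul_le_mul_of_nonneg_right hu.2.le hl.le
        have e4 := mul_le_mul_of_nonneg_left e3 D.σ0.le
        have e5 : t.re = ε + b * σ := by rw [hε]; ring
        rw [e5]
        nlinarith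
      have e6 := sq_exp_le (x := lam n / u) hε0 (by positivity)
      have e7 : (u ^ 2)⁻¹ * lam n * Real.exp (-(ε * (lam n / u))) ≤ 2 / ε ^ 2 / δ := by
        have e8 : (u ^ 2)⁻¹ * lam n * Real.exp (-(ε * (lam n / u))) =
            ((lam n / u) ^ 2 * Real.exp (-(ε * (lam n / u)))) / lam n := by
          field_simp
        rw [e8]
        calc _ ≤ (2 / ε ^ 2) / lam n := div_le_div_of_nonneg_right e6 hl.le
          _ ≤ _ := div_le_div_of_nonneg_left (by positivity) D.δ0 (D.lam_ge n)
      calc |w u| * ((u ^ 2)⁻¹ * (|c n| * lam n * Real.exp (-(t.re * (lam n / u))))) ≤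
            W * ((u ^ 2)⁻¹ * (|c n| * lam n *
              (Real.exp (-(σ * lam n)) * Real.exp (-(ε * (lam n / u)))))) := by
            gcongr
            exact hw.bd u
        _ = W * ((u ^ 2)⁻¹ * lam n * Real.exp (-(ε * (lam n / u)))) *
            (|c n| * Real.exp (-(σ * lam n))) := by ring
        _ ≤ _ := by gcongr
    have hint : ∀ n, Integrable (fun u : ℝ => (w u : ℂ) * (((u ^ 2)⁻¹ : ℝ) *
        (((c n * lam n : ℝ) : ℂ) * exp (-(t / u * lam n))))) (volume.restrict (Ioo 0 b)) := by
      intro n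
      refine Integrable.mono' (g := fun _ => W * (2 / ε ^ 2 / δ) * (|c n| * Real.exp (-(σ * lam n))))
        (integrable_const _) ?_ ?_
      · refine Measurable.aestronglyMeasurable ?_
        have := hw.meas
        refine (by fun_prop : Measurable fun u : ℝ => (w u : ℂ)).mul ?_
        refine (by fun_prop : Measurable fun u : ℝ => (((u ^ 2)⁻¹ : ℝ) : ℂ)).mul ?_
        refine Measurable.const_mul (Measurable.cexp ?_) _
        exact ((measurable_const.div (by fun_prop)).mul_const _).neg
      · filter_upwards [ae_restrict_mem measurableSet_Ioo] with u hu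
        exact hnorm n u hu
    have h3 := hasSum_integral_of_summable_integral_norm (μ := volume.restrict (Ioo 0 b)) hint
      (Summable.of_nonneg_of_le (fun n => by positivity) (fun n => by
        refine (setIntegral_mono_on (g := fun _ => W * (2 / ε ^ 2 / δ) *
          (|c n| * Real.exp (-(σ * lam n)))) (hint n).norm (integrable_const _) measurableSet_Ioo
          (hnorm n)).trans ?_
        rw [setIntegral_const, smul_eq_mul]) (((D.sum.mul_left _)).mul_left _))
    have h4 : ∫ u in Ioo 0 b, (∑' n, (w u : ℂ) * (((u ^ 2)⁻¹ : ℝ) *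
        (((c n * lam n : ℝ) : ℂ) * exp (-(t / u * lam n))))) =
        ∫ u in Ioo 0 b, (w u : ℂ) * (((u ^ 2)⁻¹ : ℝ) * P lam c (t / u)) := by
      refine integral_congr_ae (ae_of_all _ fun u => ?_)
      simp only
      rw [tsum_mul_left, tsum_mul_left]
      rfl
    rwa [h4] at h3
  -- the terms agree
  have h3 : ∀ n, ∫ T in Ioi (0 : ℝ), exp (-(t * T)) * ((c n * w (lam n / T) : ℝ) : ℂ) =
      ∫ u in Ioo 0 b, (w u : ℂ) * (((u ^ 2)⁻¹ : ℝ) *
      (((c n * lam n : ℝ) : ℂ) * exp (-(t / u * lam n)))) := by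
    intro n
    have e1 : ∀ T : ℝ, exp (-(t * T)) * ((c n * w (lam n / T) : ℝ) : ℂ) =
        (c n : ℂ) * (exp (-(t * T)) * (w (lam n / T) : ℂ)) := fun T => by push_cast; ring
    simp only [e1]
    rw [integral_const_mul, subst (D.lam0 n), ← integral_const_mul]
    have e2 : ∀ u : ℝ, (c n : ℂ) * ((lam n : ℂ) * (((u ^ 2)⁻¹ : ℝ) *
        (exp (-(t / u * lam n)) * (w u : ℂ)))) = (w u : ℂ) * (((u ^ 2)⁻¹ : ℝ) *
      (((c n * lam n : ℝ) : ℂ) * exp (-(t / u * lam n)))) := fun u => by push_cast; ring
    simp only [e2]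
    rw [← integral_Ioc_eq_integral_Ioo, ← integral_indicator measurableSet_Ioi,
      ← integral_indicator measurableSet_Ioc]
    refine integral_congr_ae (ae_of_all _ fun u => ?_)
    by_cases hu : u ∈ Ioc 0 b
    · rw [indicator_of_mem hu, indicator_of_mem (show u ∈ Ioi (0 : ℝ) from hu.1)]
    · rw [indicator_of_notMem hu]
      by_cases hu0 : u ∈ Ioi (0 : ℝ)
      · rw [indicator_of_mem hu0]
        have : b < u := by
          by_contra h
          exact hu ⟨hu0, not_lt.1 h⟩
        rw [hw.supp u this]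
        simp
      · rw [indicator_of_notMem hu0]
  simp only [h3] at h1
  exact h1.unique h2

/-- **continuation of the Laplace transform** -/
theorem L_diff (D : Dat lam c δ σ) (hw : Wt w W b) {α C T₀ : ℝ} 
    (hS : ∀ T, T₀ ≤ T → |S lam c w T| ≤ C * Real.exp (α * T)) {t : ℂ} (ht : α < t.re) :
    DifferentiableAt ℂ (L lam c w) t := by
  set ε : ℝ := (t.re - α) / 2 with hε
  have hε0 : 0 < ε := by rw [hε]; linarith
  set O : Set ℂ := {v | α + ε < v.re} with hO
  have hOo : IsOpen O := isOpen_lt continuous_const Complex.continuous_re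
  -- a bound for all `T > 0`
  obtain ⟨C', hC0, hC'⟩ : ∃ C' : ℝ, 0 ≤ C' ∧ ∀ T, 0 < T → |S lam c w T| ≤ C' * Real.exp (α * T) := by
    set C1 : ℝ := W * Real.exp (σ * b * |T₀|) * (∑' n, |c n| * Real.exp (-(σ * lam n))) *
      Real.exp (|α| * |T₀|) with hC1
    have hW := hw.W0
    have hs0 : 0 ≤ ∑' n, |c n| * Real.exp (-(σ * lam n)) := tsum_nonneg fun n => by positivity
    have hC10 : 0 ≤ C1 := by positivity
    refine ⟨max C1 |C|, by positivity, fun T hT => ?_⟩
    rcases le_total T₀ T with h | h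
    · refine (hS T h).trans ?_
      have : C ≤ max C1 |C| := (le_abs_self C).trans (le_max_right _ _)
      gcongr
    · have h1 := S_le D hw hT
      have hT0 : T ≤ |T₀| := h.trans (le_abs_self _)
      have h2 : σ * b * T ≤ σ * b * |T₀| :=
        mul_le_mul_of_nonneg_left hT0 (mul_nonneg D.σ0.le hw.b0.le)
      have h3 : 1 ≤ Real.exp (|α| * |T₀|) * Real.exp (α * T) := by
        rw [← Real.exp_add]
        apply Real.one_le_exp
        have h4 : |α * T| ≤ |α| * |T₀| := by
          rw [abs_mul, abs_of_pos hT]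
          exact mul_le_mul_of_nonneg_left hT0 (abs_nonneg _)
        have := neg_abs_le (α * T)
        linarith
      calc |S lam c w T| ≤ W * Real.exp (σ * b * T) * ∑' n, |c n| * Real.exp (-(σ * lam n)) := h1
        _ ≤ (W * Real.exp (σ * b * |T₀|) * ∑' n, |c n| * Real.exp (-(σ * lam n))) * 1 := by
          rw [mul_one]
          gcongr
        _ ≤ (W * Real.exp (σ * b * |T₀|) * ∑' n, |c n| * Real.exp (-(σ * lam n))) *
            (Real.exp (|α| * |T₀|) * Real.exp (α * T)) := by gcongr
        _ = C1 * Real.exp (α * T) := by rw [hC1]; ring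
        _ ≤ max C1 |C| * Real.exp (α * T) := by
          gcongr
          exact le_max_left _ _
  have hexp : Integrable (fun T : ℝ => C' * Real.exp (-(ε * T))) (volume.restrict (Ioi 0)) := by
    have := integrableOn_exp_mul_Ioi (a := -ε) (by linarith) 0
    refine Integrable.const_mul ?_ _
    refine this.congr_fun (fun T _ => ?_) measurableSet_Ioi
    simp only
    congr 1
    ring
  have h := Pool.Agent.HP.differentiableOn_integral (volume.restrict (Ioi (0 : ℝ)))
    (fun (T : ℝ) (v : ℂ) => if 0 < T then exp (-(v * T)) * (S lam c w T : ℂ) else 0) O hOo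
    (fun v _ => ?_) (fun T => ?_) (fun T => if 0 < T then C' * Real.exp (-(ε * T)) else 0) ?_
    (fun T v hv => ?_)
  · have h1 : (fun v : ℂ => ∫ T in Ioi (0 : ℝ),
        (if 0 < T then exp (-(v * T)) * (S lam c w T : ℂ) else 0)) = L lam c w := by
      funext v
      unfold L
      refine setIntegral_congr_fun measurableSet_Ioi fun T hT => ?_
      rw [if_pos (show 0 < T from hT)]
    rw [h1] at h
    exact h.differentiableAt (hOo.mem_nhds (show α + ε < t.re by rw [hε]; linarith))
  · have h1 : AEStronglyMeasurable (fun T : ℝ => exp (-(v * T)) * (S lam c w T : ℂ))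
        (volume.restrict (Ioi 0)) :=
      (Continuous.aestronglyMeasurable (by fun_prop)).mul
        (Complex.continuous_ofReal.comp_aestronglyMeasurable (S_meas D hw))
    refine h1.congr ?_
    filter_upwards [ae_restrict_mem measurableSet_Ioi] with T hT
    rw [if_pos (show 0 < T from hT)]
  · by_cases hT : 0 < T
    · simp only [hT, if_true]
      exact Differentiable.differentiableOn (by fun_prop)
    · simp only [hT, if_false]
      exact differentiableOn_const _
  · refine hexp.congr ?_
    filter_upwards [ae_restrict_mem measurableSet_Ioi] with T hT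
    rw [if_pos (show 0 < T from hT)]
  · split_ifs with hT
    · have hv' : α + ε < v.re := hv
      rw [norm_mul, Complex.norm_exp, Complex.norm_real, Real.norm_eq_abs]
      have e1 : (-(v * (T : ℂ))).re = -(v.re * T) := by simp
      rw [e1]
      calc Real.exp (-(v.re * T)) * |S lam c w T| ≤
            Real.exp (-((α + ε) * T)) * (C' * Real.exp (α * T)) := by
            refine mul_le_mul (Real.exp_le_exp.2 ?_) (hC' T hT) (abs_nonneg _) (Real.exp_pos _).le
            nlinarith
        _ = C' * (Real.exp (-((α + ε) * T)) * Real.exp (α * T)) := by ring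
        _ = _ := by
          rw [← Real.exp_add]
          congr 2
          ring
    · simp

end Pool.Agent.TH942.LS
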