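import Pool.Agent.H21.L.R_seed8.TH942.LS.Cone

/-!
# The remainder after the main term of the outermost zero
-/

set_option autoImplicit false

open MeasureTheory Filter Topology Set Complex

namespace Pool.Agent.TH942.LS

variable {lam c : ℕ → ℝ} {δ σ W b θ : ℝ} {w : ℝ → ℝ} {Ψ Kf : ℂ → ℂ}

/-- the logarithmic derivative near a zero -/
theorem local_form (H : Cont lam c σ θ Ψ Kf) {s₁ : ℂ} (hs : θ < s₁.re) (h0 : Ψ s₁ = 0) :
    ∃ (m : ℕ) (h : ℂ → ℂ), 0 < m ∧ AnalyticAt ℂ h s₁ ∧ h s₁ ≠ 0 ∧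
      ∀ᶠ s in 𝓝[≠] s₁, deriv Ψ s / Ψ s = m / (s - s₁) + deriv h s / h s := by
  have ha := H.analytic hs
  have htop : analyticOrderAt Ψ s₁ ≠ ⊤ := by
    rw [Ne, analyticOrderAt_eq_top]
    intro h
    have h1 := isolated H hs
    have h2 : ∀ᶠ s in 𝓝[≠] s₁, Ψ s = 0 := h.filter_mono nhdsWithin_le_nhds
    obtain ⟨s, h3, h4⟩ := (h1.and h2).exists
    exact h3 h4
  obtain ⟨m, hm⟩ : ∃ m : ℕ, analyticOrderAt Ψ s₁ = m := by
    cases hq : analyticOrderAt Ψ s₁ with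
    | top => exact absurd hq htop
    | coe n => exact ⟨n, rfl⟩
  obtain ⟨h, hh, hh0, heq⟩ := ha.analyticOrderAt_eq_natCast.1 hm
  have hm0 : 0 < m := by
    rcases Nat.eq_zero_or_pos m with h1 | h1
    · exfalso
      have h2 := heq.self_of_nhds
      rw [h1, pow_zero, one_smul] at h2
      rw [h2] at h0
      exact hh0 h0
    · exact h1
  refine ⟨m, h, hm0, hh, hh0, ?_⟩
  have h1 : ∀ᶠ s in 𝓝 s₁, Ψ =ᶠ[𝓝 s] fun s => (s - s₁) ^ m • h s := heq.eventually_nhds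
  have h2 : ∀ᶠ s in 𝓝 s₁, DifferentiableAt ℂ h s := hh.eventually_analyticAt.mono fun s hs =>
    hs.differentiableAt
  have h3 : ∀ᶠ s in 𝓝 s₁, h s ≠ 0 := hh.continuousAt.eventually_ne hh0
  filter_upwards [h1.filter_mono nhdsWithin_le_nhds, h2.filter_mono nhdsWithin_le_nhds,
    h3.filter_mono nhdsWithin_le_nhds, self_mem_nhdsWithin] with s e1 e2 e3 e4
  have hss : s - s₁ ≠ 0 := sub_ne_zero.2 e4
  rw [e1.deriv_eq, e1.eq_of_nhds]
  have e5 : HasDerivAt (fun s => (s - s₁) ^ m • h s)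
      ((m * (s - s₁) ^ (m - 1) * 1) * h s + (s - s₁) ^ m * deriv h s) s := by
    have e6 : HasDerivAt (fun s : ℂ => (s - s₁) ^ m) (m * (s - s₁) ^ (m - 1) * 1) s :=
      ((hasDerivAt_id s).sub_const s₁).pow m
    exact e6.mul e2.hasDerivAt
  rw [e5.deriv, smul_eq_mul]
  have e7 : (s - s₁) ^ m = (s - s₁) ^ (m - 1) * (s - s₁) := by
    rw [← pow_succ]
    congr 1
    omega
  have e8 : (s - s₁) ^ (m - 1) ≠ 0 := pow_ne_zero _ hss
  rw [e7]
  field_simp

/-- bound for the Dirichlet series -/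
theorem P_le (D : Dat lam c δ σ) {s : ℂ} (hs : σ < s.re) :
    ‖P lam c s‖ ≤ 2 / δ * (∑' n, |c n| * Real.exp (-(σ * lam n))) / (s.re - σ) ^ 2 := by
  set ε : ℝ := s.re - σ with hε
  have hε0 : 0 < ε := by rw [hε]; linarith
  have hle : ∀ n, ‖((c n * lam n : ℝ) : ℂ) * exp (-(s * lam n))‖ ≤
      (2 / δ / ε ^ 2) * (|c n| * Real.exp (-(σ * lam n))) := by
    intro n
    have hl := D.lam0 n
    rw [norm_mul, Complex.norm_real, Complex.norm_exp, Real.norm_eq_abs, abs_mul, abs_of_pos hl]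
    have e1 : (-(s * (lam n : ℂ))).re = -(s.re * lam n) := by
      rw [Complex.neg_re, Complex.re_mul_ofReal]
    rw [e1]
    have e2 : Real.exp (-(s.re * lam n)) = Real.exp (-(σ * lam n)) * Real.exp (-(ε * lam n)) := by
      rw [← Real.exp_add]
      congr 1
      rw [hε]
      ring
    have e3 := sq_exp_le (x := lam n) hε0 hl.le
    have e4 : lam n * Real.exp (-(ε * lam n)) ≤ 2 / δ / ε ^ 2 := by
      have e5 : lam n * Real.exp (-(ε * lam n)) =
          (lam n ^ 2 * Real.exp (-(ε * lam n))) / lam n := by field_simp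
      rw [e5]
      calc _ ≤ (2 / ε ^ 2) / lam n := div_le_div_of_nonneg_right e3 hl.le
        _ ≤ (2 / ε ^ 2) / δ := div_le_div_of_nonneg_left (by positivity) D.δ0 (D.lam_ge n)
        _ = _ := by ring
    rw [e2]
    calc |c n| * lam n * (Real.exp (-(σ * lam n)) * Real.exp (-(ε * lam n))) =
        (lam n * Real.exp (-(ε * lam n))) * (|c n| * Real.exp (-(σ * lam n))) := by ring
      _ ≤ _ := by gcongr
  unfold P
  refine (tsum_of_norm_bounded (D.sum.hasSum.mul_left _) hle).trans (le_of_eq ?_)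
  ring

/-- **the remainder** -/
theorem exists_E (D : Dat lam c δ σ) (H : Cont lam c σ θ Ψ Kf) {s₁ : ℂ} (hs : θ < s₁.re)
    (h0 : Ψ s₁ = 0) {κ η V : ℝ} (hκ : 0 < κ) (hη1 : η ≤ 1) (hV : 2 ≤ V)
    (h1 : ∀ v ∈ cone κ η, θ < (v * s₁).re ∧ (v ≠ 1 → Ψ (v * s₁) ≠ 0))
    (h2 : ∀ v ∈ cone κ η, V ≤ v.re → σ + 1 ≤ (v * s₁).re ∧ v.re * s₁.re / 2 ≤ (v * s₁).re) :
    ∃ (m : ℕ) (E : ℂ → ℂ) (C : ℝ), 0 < m ∧ (∀ v ∈ cone κ η, DifferentiableAt ℂ E v) ∧
      (∀ v, v ≠ 1 → E v = deriv Ψ (v * s₁) / Ψ (v * s₁) - Kf (v * s₁) - m / (s₁ * (v * (v - 1)))) ∧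
      0 ≤ C ∧ ∀ v ∈ cone κ η, ‖E v‖ ≤ C / ‖v‖ ^ 2 := by
  have hpos : 0 < s₁.re := H.θ0.trans_lt hs
  have hs0 : s₁ ≠ 0 := by
    intro h
    rw [h] at hpos
    simp at hpos
  obtain ⟨m, h, hm0, hh, hh0, hloc⟩ := local_form H hs h0
  have hm : Differentiable ℂ fun v : ℂ => v * s₁ := by fun_prop
  set e₀ : ℂ := deriv h s₁ / h s₁ - Kf s₁ + m / s₁ with he₀
  set E : ℂ → ℂ := fun v => if v = 1 then e₀ else
    deriv Ψ (v * s₁) / Ψ (v * s₁) - Kf (v * s₁) - m / (s₁ * (v * (v - 1))) with hE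
  have hEne : ∀ v, v ≠ 1 → E v = deriv Ψ (v * s₁) / Ψ (v * s₁) - Kf (v * s₁) -
      m / (s₁ * (v * (v - 1))) := fun v hv => by rw [hE]; simp only; rw [if_neg hv]
  have hv0 : ∀ v ∈ cone κ η, v ≠ 0 := by
    intro v hv h3
    have := hv.1
    rw [h3] at this
    simp at this
    linarith
  have hdiff : ∀ v ∈ cone κ η, DifferentiableAt ℂ E v := by
    intro v hv
    obtain ⟨e1, e2⟩ := h1 v hv
    by_cases hv1 : v = 1
    · -- the removable singularity
      rw [hv1]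
      have e3 : ∀ᶠ s in 𝓝 s₁, s ≠ s₁ → deriv Ψ s / Ψ s = m / (s - s₁) + deriv h s / h s := by
        rwa [eventually_nhdsWithin_iff] at hloc
      have e4 : Tendsto (fun v : ℂ => v * s₁) (𝓝 1) (𝓝 s₁) := by
        have := hm.continuous.tendsto 1
        simpa using this
      have e5 : ∀ᶠ v : ℂ in 𝓝 1, v ≠ 0 := eventually_ne_nhds one_ne_zero
      have e6 : E =ᶠ[𝓝 1] fun v => deriv h (v * s₁) / h (v * s₁) - Kf (v * s₁) + m / (s₁ * v) := by
        filter_upwards [e4.eventually e3, e5] with x h3 h4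
        by_cases hx : x = 1
        · rw [hx, hE]
          simp only [if_true]
          rw [he₀, one_mul, mul_one]
        · have h5 : x * s₁ ≠ s₁ := fun h6 => hx (mul_right_cancel₀ hs0 (by rw [h6, one_mul]))
          rw [hEne x hx, h3 h5]
          have h6 : x - 1 ≠ 0 := sub_ne_zero.2 hx
          have h7 : x * s₁ - s₁ = s₁ * (x - 1) := by ring
          rw [h7]
          field_simp
          ring
      have hd1 : DifferentiableAt ℂ (fun v : ℂ => deriv h (v * s₁)) 1 := by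
        have e7 : DifferentiableAt ℂ (deriv h) (1 * s₁) := by
          rw [one_mul]
          exact hh.deriv.differentiableAt
        exact DifferentiableAt.comp (f := fun v : ℂ => v * s₁) 1 e7 (hm 1)
      have hd2 : DifferentiableAt ℂ (fun v : ℂ => h (v * s₁)) 1 := by
        have e7 : DifferentiableAt ℂ h (1 * s₁) := by
          rw [one_mul]
          exact hh.differentiableAt
        exact DifferentiableAt.comp (f := fun v : ℂ => v * s₁) 1 e7 (hm 1)
      have hd3 : DifferentiableAt ℂ (fun v : ℂ => Kf (v * s₁)) 1 := by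
        have e7 : DifferentiableAt ℂ Kf (1 * s₁) := by
          rw [one_mul]
          exact H.Kd _ hs
        exact DifferentiableAt.comp (f := fun v : ℂ => v * s₁) 1 e7 (hm 1)
      have hd4 : DifferentiableAt ℂ (fun v : ℂ => (m : ℂ) / (s₁ * v)) 1 :=
        DifferentiableAt.div (by fun_prop) (by fun_prop) (by simpa using hs0)
      refine DifferentiableAt.congr_of_eventuallyEq ?_ e6
      exact ((hd1.div hd2 (by rw [one_mul]; exact hh0)).sub hd3).add hd4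
    · have e3 := e2 hv1
      have e4 : ∀ᶠ x : ℂ in 𝓝 v, x ≠ 1 := eventually_ne_nhds hv1
      have e5 : E =ᶠ[𝓝 v] fun v => deriv Ψ (v * s₁) / Ψ (v * s₁) - Kf (v * s₁) -
          m / (s₁ * (v * (v - 1))) := e4.mono fun x hx => hEne x hx
      refine DifferentiableAt.congr_of_eventuallyEq ?_ e5
      have hd1 : DifferentiableAt ℂ (fun v : ℂ => deriv Ψ (v * s₁)) v :=
        DifferentiableAt.comp (f := fun v : ℂ => v * s₁) v
          (H.analytic e1).deriv.differentiableAt (hm v)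
      have hd2 : DifferentiableAt ℂ (fun v : ℂ => Ψ (v * s₁)) v :=
        DifferentiableAt.comp (f := fun v : ℂ => v * s₁) v (H.Ψd _ e1) (hm v)
      have hd3 : DifferentiableAt ℂ (fun v : ℂ => Kf (v * s₁)) v :=
        DifferentiableAt.comp (f := fun v : ℂ => v * s₁) v (H.Kd _ e1) (hm v)
      have hd4 : DifferentiableAt ℂ (fun v : ℂ => (m : ℂ) / (s₁ * (v * (v - 1)))) v :=
        DifferentiableAt.div (by fun_prop) (by fun_prop)
          (mul_ne_zero hs0 (mul_ne_zero (hv0 v hv) (sub_ne_zero.2 hv1)))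
      exact ((hd1.div hd2 e3).sub hd3).sub hd4
  -- the bound
  have hnorm : ∀ v ∈ cone κ η, ‖v‖ ≤ 2 * v.re ∧ 0 < v.re := by
    intro v hv
    have e1 : 0 < v.re := hκ.trans_le hv.1
    have e2 := Complex.norm_le_abs_re_add_abs_im v
    rw [abs_of_pos e1] at e2
    have e3 : |v.im| ≤ v.re := hv.2.trans (by nlinarith)
    exact ⟨by linarith, e1⟩
  obtain ⟨M, hM⟩ : ∃ M : ℝ, ∀ v ∈ cone κ η, v.re ≤ V → ‖E v‖ ≤ M := by
    have hcl : IsClosed (cone κ η ∩ {v : ℂ | v.re ≤ V}) := by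
      have e1 : IsClosed {v : ℂ | κ ≤ v.re} := isClosed_le continuous_const Complex.continuous_re
      have e2 : IsClosed {v : ℂ | |v.im| ≤ η * v.re} := isClosed_le (by fun_prop) (by fun_prop)
      have e3 : IsClosed {v : ℂ | v.re ≤ V} := isClosed_le Complex.continuous_re continuous_const
      exact (e1.inter e2).inter e3
    have hcomp : IsCompact (cone κ η ∩ {v : ℂ | v.re ≤ V}) := by
      refine (isCompact_closedBall (0 : ℂ) (2 * V)).of_isClosed_subset hcl ?_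
      rintro v ⟨hv, hv2⟩
      rw [Metric.mem_closedBall, dist_zero_right]
      have := (hnorm v hv).1
      have hv3 : v.re ≤ V := hv2
      linarith
    have hcont : ContinuousOn E (cone κ η ∩ {v : ℂ | v.re ≤ V}) := fun v hv =>
      (hdiff v hv.1).continuousAt.continuousWithinAt
    obtain ⟨M, hM⟩ := hcomp.exists_bound_of_continuousOn hcont
    exact ⟨M, fun v hv hv2 => hM v ⟨hv, hv2⟩⟩
  set S₀ : ℝ := ∑' n, |c n| * Real.exp (-(σ * lam n)) with hSg
  have hSg0 : 0 ≤ S₀ := tsum_nonneg fun n => by positivity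
  have hσ := D.σ0
  have hδ := D.δ0
  set C₁ : ℝ := 2 / δ * S₀ * (4 * (σ + 1) / s₁.re) ^ 2 with hC₁
  set C₂ : ℝ := m / ‖s₁‖ * 4 with hC₂
  have hC10 : 0 ≤ C₁ := by positivity
  have hC20 : 0 ≤ C₂ := by positivity
  refine ⟨m, E, |M| * (2 * V) ^ 2 + C₁ + C₂, hm0, hdiff, hEne, by positivity, fun v hv => ?_⟩
  obtain ⟨hv1, hv2⟩ := hnorm v hv
  have hvn : 0 < ‖v‖ := norm_pos_iff.2 (hv0 v hv)
  rw [le_div_iff₀ (by positivity)]
  rcases le_or_gt v.re V with h3 | h3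
  · have e1 := (hM v hv h3).trans (le_abs_self M)
    have e2 : ‖v‖ ^ 2 ≤ (2 * V) ^ 2 := pow_le_pow_left₀ hvn.le (by linarith) 2
    have e3 : ‖E v‖ * ‖v‖ ^ 2 ≤ |M| * (2 * V) ^ 2 :=
      mul_le_mul e1 e2 (by positivity) (abs_nonneg _)
    linarith
  · obtain ⟨e1, e2⟩ := h2 v hv h3.le
    have hvne : v ≠ 1 := by
      intro h4
      rw [h4] at h3
      simp at h3
      linarith
    rw [hEne v hvne, ← H.eq _ (by linarith : σ < (v * s₁).re)]
    have e3 := P_le D (s := v * s₁) (by linarith)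
    rw [← hSg] at e3
    -- lower bound for `Re (v s₁) - σ`
    have e4 : v.re * s₁.re / (2 * (σ + 1)) ≤ (v * s₁).re - σ := by
      rw [div_le_iff₀ (by positivity)]
      nlinarith
    have e5 : 0 < v.re * s₁.re / (2 * (σ + 1)) := by positivity
    have e6 : ‖P lam c (v * s₁)‖ * ‖v‖ ^ 2 ≤ C₁ := by
      calc ‖P lam c (v * s₁)‖ * ‖v‖ ^ 2 ≤
            (2 / δ * S₀ / ((v * s₁).re - σ) ^ 2) * (2 * v.re) ^ 2 := by gcongr
        _ ≤ (2 / δ * S₀ / (v.re * s₁.re / (2 * (σ + 1))) ^ 2) * (2 * v.re) ^ 2 := by gcongr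
        _ = C₁ := by
          rw [hC₁]
          field_simp
          ring
    have e7 : ‖(m : ℂ) / (s₁ * (v * (v - 1)))‖ * ‖v‖ ^ 2 ≤ C₂ := by
      have e8 : v.re / 2 ≤ ‖v - 1‖ := by
        have := Complex.re_le_norm (v - 1)
        simp only [Complex.sub_re, Complex.one_re] at this
        linarith
      have e9 : 0 < ‖v - 1‖ := by linarith
      have hsn : 0 < ‖s₁‖ := norm_pos_iff.2 hs0
      rw [norm_div, norm_mul, norm_mul, Complex.norm_natCast]
      have e10 : (m : ℝ) / (‖s₁‖ * (‖v‖ * ‖v - 1‖)) * ‖v‖ ^ 2 = m / ‖s₁‖ * (‖v‖ / ‖v - 1‖) := by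
        field_simp
      rw [e10, hC₂]
      have e11 : ‖v‖ / ‖v - 1‖ ≤ 4 := by
        rw [div_le_iff₀ e9]
        linarith
      gcongr
    have e8 : 0 ≤ |M| * (2 * V) ^ 2 := by positivity
    calc ‖P lam c (v * s₁) - m / (s₁ * (v * (v - 1)))‖ * ‖v‖ ^ 2 ≤
        (‖P lam c (v * s₁)‖ + ‖(m : ℂ) / (s₁ * (v * (v - 1)))‖) * ‖v‖ ^ 2 := by
          gcongr
          exact norm_sub_le _ _
      _ = ‖P lam c (v * s₁)‖ * ‖v‖ ^ 2 + ‖(m : ℂ) / (s₁ * (v * (v - 1)))‖ * ‖v‖ ^ 2 := by ring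
      _ ≤ _ := by linarith

end Pool.Agent.TH942.LS
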